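import Pool.Agent.H86.RG.Targets2

/-!
Board reg_modules (MP_2697e3_an), row E6DCV: convolution of a kernel with an integrable function.
-/

set_option autoImplicit false

open MeasureTheory Metric Set Filter Topology Pool.Agent.H87.SN Pool.Agent.H86.RG
open scoped ContDiff RealInnerProductSpace ENNReal

namespace Pool.Agent.H97.RG6

private lemma cv_eq {n : ℕ} (k g : E n → ℝ) :
    cv k g = MeasureTheory.convolution g k (ContinuousLinearMap.lsmul ℝ ℝ) volume := by
  funext x
  unfold cv MeasureTheory.convolution
  refine integral_congr_ae (Eventually.of_forall fun y => ?_)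
  show k (x - y) * g y = g y * k (x - y)
  ring

/-- DCV: convolution of a kernel with an integrable function -/
theorem pf_DCV (hDIL : T_DIL) : T_DCV := by
  intro n k g t ht hk hk1 hg
  obtain ⟨h1, h2, h3, -, -⟩ := hDIL n k t ht hk hk1
  have hcs : HasCompactSupport (dil k t) := by
    refine HasCompactSupport.of_support_subset_isCompact (isCompact_closedBall (0 : E n) t) ?_
    intro x hx
    rw [mem_closedBall, dist_zero_right]
    by_contra h
    exact hx (h2 x (le_of_not_ge h))
  refine ⟨?_, ?_, ?_⟩
  · rw [cv_eq]
    exact hcs.contDiff_convolution_right _ hg.locallyIntegrable h1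
  · intro i x
    have hd := (hcs.hasFDerivAt_convolution_right (ContinuousLinearMap.lsmul ℝ ℝ)
      hg.locallyIntegrable (h1.of_le (by exact_mod_cast le_top)) x).fderiv
    have hcd : HasCompactSupport (fderiv ℝ (dil k t)) := hcs.fderiv ℝ
    unfold dd
    rw [cv_eq, hd, convolution_precompR_apply _ hg.locallyIntegrable hcd
      (h1.continuous_fderiv (by simp)) x (bv i)]
    have h4 : (fun a => fderiv ℝ (dil k t) a (bv i)) = fun x => t⁻¹ * dil (dd i k) t x := h3 i
    rw [h4]
    unfold cv MeasureTheory.convolution
    rw [← integral_const_mul]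
    refine integral_congr_ae (Eventually.of_forall fun y => ?_)
    show g y * (t⁻¹ * dil (dd i k) t (x - y)) = t⁻¹ * (dil (dd i k) t (x - y) * g y)
    ring
  · intro M x hM
    have hM0 : 0 ≤ M := (abs_nonneg _).trans (hM 0)
    have hb : ∀ y, ‖dil k t (x - y) * g y‖ ≤
        (ball x t).indicator (fun y => M * (t ^ n)⁻¹ * |g y|) y := by
      intro y
      by_cases hy : y ∈ ball x t
      · rw [indicator_of_mem hy, norm_mul, Real.norm_eq_abs, Real.norm_eq_abs]
        refine mul_le_mul_of_nonneg_right ?_ (abs_nonneg _)
        unfold dil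
        rw [abs_mul, abs_of_pos (by positivity : 0 < (t ^ n)⁻¹), mul_comm]
        exact mul_le_mul_of_nonneg_right (hM _) (by positivity)
      · rw [indicator_of_notMem hy, h2 (x - y), zero_mul, norm_zero]
        rw [mem_ball, not_lt, dist_comm, dist_eq_norm] at hy
        exact hy
    calc |cv (dil k t) g x| = ‖∫ y, dil k t (x - y) * g y‖ := rfl
      _ ≤ ∫ y, (ball x t).indicator (fun y => M * (t ^ n)⁻¹ * |g y|) y :=
          norm_integral_le_of_norm_le
            ((hg.abs.const_mul _).indicator measurableSet_ball) (Eventually.of_forall hb)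
      _ = M * (t ^ n)⁻¹ * ∫ y in ball x t, |g y| := by
          rw [integral_indicator measurableSet_ball, integral_const_mul]

end Pool.Agent.H97.RG6
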